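import Mathlib

/-!
# A complete absolutely homogeneous real tree

We construct the complete real tree in which every point has exactly three directions, and prove
that it is absolutely homogeneous, connected, locally connected and not locally compact.
-/

namespace Pool.Agent.Results.MP_079cdc_gt.TrivalentTree

open Set Filter Topology

/-- A metric space is absolutely homogeneous if every isometry (surjective distance preserving
map) between two subsets extends to an isometry of the space onto itself. -/
def AbsolutelyHomogeneous (X : Type*) [MetricSpace X] : Prop :=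
  ∀ (A B : Set X) (f : A ≃ᵢ B), ∃ g : X ≃ᵢ X, ∀ a : A, g a = f a

/-! ### Trees with exactly three directions at each point are absolutely homogeneous -/

section Abstract

variable {X : Type*} [MetricSpace X]

/-- Partial isometries, as sets of pairs. -/
def PI (G : Set (X × X)) : Prop := ∀ p ∈ G, ∀ q ∈ G, dist p.1 q.1 = dist p.2 q.2

/-- The four point condition. -/
def FourPoint (X : Type*) [MetricSpace X] : Prop :=
  ∀ x y z w : X, dist x z + dist y w ≤ max (dist x y + dist z w) (dist x w + dist y z)

/-- Points on segments. -/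
def Seg (X : Type*) [MetricSpace X] : Prop :=
  ∀ (a b : X) (s : ℝ), 0 ≤ s → s ≤ dist a b → ∃ x, dist a x = s ∧ dist x b = dist a b - s

/-- At each point and each scale there are three directions. -/
def Three (X : Type*) [MetricSpace X] : Prop :=
  ∀ (q : X) (r : ℝ), 0 < r → ∃ z : Fin 3 → X, (∀ i, dist q (z i) = r) ∧
    ∀ i j, i ≠ j → dist (z i) (z j) = 2 * r

/-- There are never four directions. -/
def NotFour (X : Type*) [MetricSpace X] : Prop :=
  ∀ (p : X) (w : Fin 4 → X), (∀ i, w i ≠ p) →
    ∃ i j, i ≠ j ∧ dist (w i) (w j) < dist (w i) p + dist p (w j)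

/-- The distance from a point of a segment. -/
lemma dist_seg (h4 : FourPoint X) {a a' x : X} (hx : dist a x + dist x a' = dist a a') (b : X) :
    dist x b = max (dist a b - dist a x) (dist a' b - dist a' x) := by
  apply le_antisymm
  · have h := h4 x a b a'
    rcases le_max_iff.1 h with h | h
    · refine le_max_of_le_right ?_
      rw [dist_comm a' x, dist_comm a' b]
      rw [dist_comm x a] at h
      linarith
    · refine le_max_of_le_left ?_
      linarith
  · refine max_le ?_ ?_
    · linarith [dist_triangle a x b]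
    · linarith [dist_triangle a' x b]

/-- The median. -/
lemma exists_median (h4 : FourPoint X) (hs : Seg X) (x a a' : X) :
    ∃ m, dist a m + dist m a' = dist a a' ∧
      dist x m = (dist x a + dist x a' - dist a a') / 2 ∧
      dist a m = (dist a x + dist a a' - dist x a') / 2 := by
  have h1 := dist_triangle x a a'
  have h2 := dist_triangle a x a'
  have h3 := dist_triangle a a' x
  rw [dist_comm a' x] at h3
  obtain ⟨m, hm1, hm2⟩ := hs a a' ((dist a x + dist a a' - dist x a') / 2) (by
    rw [dist_comm a x] at *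
    linarith) (by linarith)
  have hm : dist a m + dist m a' = dist a a' := by rw [hm1, hm2]; ring
  refine ⟨m, hm, ?_, hm1⟩
  rw [dist_comm x m, dist_seg h4 hm x, hm1, dist_comm a' m, hm2, dist_comm a' x, dist_comm a x]
  have : dist x a - (dist x a + dist a a' - dist x a') / 2 =
      dist x a' - (dist a a' - (dist x a + dist a a' - dist x a') / 2) := by ring
  rw [← this, max_self]
  ring

/-- Being in the same direction is transitive. -/
lemma same_trans (h4 : FourPoint X) {p x y z : X} (h1 : dist x y < dist x p + dist p y)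
    (h2 : dist y z < dist y p + dist p z) : dist x z < dist x p + dist p z := by
  have h := h4 x y z p
  rw [dist_comm z p] at h
  rcases le_max_iff.1 h with h | h
  · rw [dist_comm p y] at h1
    linarith
  · linarith

theorem absolutelyHomogeneous [CompleteSpace X] (h4 : FourPoint X) (hs : Seg X) (h3 : Three X)
    (hn : NotFour X) : AbsolutelyHomogeneous X := by
  intro A B f
  -- a maximal partial isometry
  let G₀ : Set (X × X) := range fun a : A => ((a : X), (f a : X))
  have hG₀ : PI G₀ := by
    rintro _ ⟨a, rfl⟩ _ ⟨b, rfl⟩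
    exact (f.dist_eq a b).symm
  obtain ⟨G, hG₀G, hmax⟩ := zorn_subset_nonempty {G : Set (X × X) | PI G} (by
    intro c hc hchain _
    refine ⟨⋃₀ c, ?_, fun s hs => subset_sUnion_of_mem hs⟩
    rintro p ⟨s, hs, hp⟩ q ⟨t, ht, hq⟩
    rcases hchain.total hs ht with h | h
    · exact hc ht p (h hp) q hq
    · exact hc hs p hp q (h hq)) G₀ hG₀
  have hG : PI G := hmax.prop
  have hadd : ∀ x y : X, (∀ p ∈ G, dist x p.1 = dist y p.2) → (x, y) ∈ G := by
    intro x y h
    have hP : PI (insert (x, y) G) := by
      rintro p (rfl | hp) q (rfl | hq)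
      · simp
      · exact h q hq
      · rw [dist_comm, h p hp, dist_comm]
      · exact hG p hp q hq
    exact hmax.le_of_ge hP (subset_insert _ _) (mem_insert _ _)
  -- the extension property, for `G` and for its inverse
  have key : ∀ H : Set (X × X), PI H →
      (∀ x y : X, (∀ p ∈ H, dist x p.1 = dist y p.2) → (x, y) ∈ H) → ∀ x, ∃ y, (x, y) ∈ H := by
    intro H hH hadd x
    -- convexity
    have hconv : ∀ p ∈ H, ∀ q ∈ H, ∀ u : X, dist p.1 u + dist u q.1 = dist p.1 q.1 →
        ∃ v, (u, v) ∈ H := by
      intro p hp q hq u hu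
      obtain ⟨v, hv1, hv2⟩ := hs p.2 q.2 (dist p.1 u) dist_nonneg (by
        rw [← hH p hp q hq, ← hu]
        linarith [dist_nonneg (x := u) (y := q.1)])
      have hv : dist p.2 v + dist v q.2 = dist p.2 q.2 := by rw [hv1, hv2]; ring
      refine ⟨v, hadd u v fun r hr => ?_⟩
      rw [dist_seg h4 hu, dist_seg h4 hv, hv1, hH p hp r hr, hH q hq r hr, dist_comm q.2 v, hv2,
        dist_comm q.1 u, ← hH p hp q hq, ← hu]
      congr 2
      ring
    by_cases hne : H.Nonempty
    swap
    · rw [not_nonempty_iff_eq_empty] at hne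
      exact ⟨x, hadd x x (by simp [hne])⟩
    -- the nearest point of the domain
    let S : Set ℝ := (fun p : X × X => dist x p.1) '' H
    have hSne : S.Nonempty := hne.image _
    have hSb : BddBelow S := ⟨0, by rintro _ ⟨p, -, rfl⟩; exact dist_nonneg⟩
    set r := sInf S with hr
    have hrle : ∀ p ∈ H, r ≤ dist x p.1 := fun p hp => csInf_le hSb ⟨p, hp, rfl⟩
    have hmed : ∀ p ∈ H, ∀ q ∈ H, dist p.1 q.1 ≤ dist x p.1 + dist x q.1 - 2 * r := by
      intro p hp q hq
      obtain ⟨m, hm1, hm2, -⟩ := exists_median h4 hs x p.1 q.1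
      obtain ⟨v, hv⟩ := hconv p hp q hq m hm1
      have := hrle _ hv
      simp only at this
      linarith
    have hseq : ∀ n : ℕ, ∃ p ∈ H, dist x p.1 < r + 1 / ((n : ℝ) + 1) := by
      intro n
      obtain ⟨_, ⟨p, hp, rfl⟩, hlt⟩ := exists_lt_of_csInf_lt hSne
        (show sInf S < r + 1 / ((n : ℝ) + 1) from lt_add_of_pos_right _ (by positivity))
      exact ⟨p, hp, hlt⟩
    choose P hPH hPlt using hseq
    have hd0 : ∀ n m : ℕ, n ≤ m → dist (P n).1 (P m).1 ≤ 2 * (1 / ((n : ℝ) + 1)) := by
      intro n m hnm
      have h1 := hmed _ (hPH n) _ (hPH m)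
      have h2 := hPlt n
      have h3 := hPlt m
      have h5 : 1 / ((m : ℝ) + 1) ≤ 1 / ((n : ℝ) + 1) := by
        apply one_div_le_one_div_of_le (by positivity)
        have : (n : ℝ) ≤ m := by exact_mod_cast hnm
        linarith
      linarith
    have hlim0 : Tendsto (fun n : ℕ => 2 * (1 / ((n : ℝ) + 1))) atTop (𝓝 0) := by
      simpa using (tendsto_one_div_add_atTop_nhds_zero_nat (𝕜 := ℝ)).const_mul 2
    have hc1 : CauchySeq fun n => (P n).1 :=
      cauchySeq_of_le_tendsto_0' _ (fun n m hnm => hd0 n m hnm) hlim0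
    have hc2 : CauchySeq fun n => (P n).2 :=
      cauchySeq_of_le_tendsto_0' _ (fun n m hnm => by
        rw [← hH _ (hPH n) _ (hPH m)]
        exact hd0 n m hnm) hlim0
    obtain ⟨p, hp⟩ := cauchySeq_tendsto_of_complete hc1
    obtain ⟨q, hq⟩ := cauchySeq_tendsto_of_complete hc2
    have hpq : (p, q) ∈ H := by
      refine hadd p q fun s hs => ?_
      have h1 : Tendsto (fun n => dist (P n).1 s.1) atTop (𝓝 (dist p s.1)) :=
        hp.dist tendsto_const_nhds
      have h2 : Tendsto (fun n => dist (P n).1 s.1) atTop (𝓝 (dist q s.2)) := by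
        have : (fun n => dist (P n).1 s.1) = fun n => dist (P n).2 s.2 :=
          funext fun n => hH _ (hPH n) _ hs
        rw [this]
        exact hq.dist tendsto_const_nhds
      exact tendsto_nhds_unique h1 h2
    have hxp : dist x p = r := by
      apply le_antisymm _ (hrle _ hpq)
      have h1 : Tendsto (fun n => dist x (P n).1) atTop (𝓝 (dist x p)) :=
        tendsto_const_nhds.dist hp
      have h2 : Tendsto (fun n : ℕ => r + 1 / ((n : ℝ) + 1)) atTop (𝓝 (r + 0)) :=
        tendsto_const_nhds.add tendsto_one_div_add_atTop_nhds_zero_nat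
      rw [add_zero] at h2
      exact le_of_tendsto_of_tendsto' h1 h2 fun n => (hPlt n).le
    -- distances from `x` to the domain
    have hxa : ∀ s ∈ H, dist x s.1 = r + dist p s.1 := by
      intro s hs'
      have h1 := hmed _ hpq _ hs'
      simp only at h1
      have h2 := dist_triangle x p s.1
      rw [hxp] at h1 h2
      linarith
    rcases (dist_nonneg (x := x) (y := p)).eq_or_lt with h0 | hpos
    · rw [eq_comm, dist_eq_zero] at h0
      exact ⟨q, h0 ▸ hpq⟩
    rw [hxp] at hpos
    obtain ⟨z, hz1, hz2⟩ := h3 q r hpos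
    -- one of the three directions is free
    have hfree : ∃ i, ∀ s ∈ H, dist (z i) s.2 = r + dist q s.2 := by
      by_contra hcon
      push Not at hcon
      choose s hsH hsne using hcon
      have hlt : ∀ i, dist (z i) (s i).2 < dist (z i) q + dist q (s i).2 := by
        intro i
        apply lt_of_le_of_ne (dist_triangle _ _ _)
        rw [dist_comm (z i) q, hz1]
        exact hsne i
      have hsep : ∀ i j, i ≠ j → ¬ dist (s i).2 (s j).2 < dist (s i).2 q + dist q (s j).2 := by
        intro i j hij h
        have h1 := same_trans h4 (hlt i) h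
        have h2 : dist (s j).2 (z j) < dist (s j).2 q + dist q (z j) := by
          have := hlt j
          rw [dist_comm (z j) (s j).2, dist_comm (z j) q, dist_comm q (s j).2] at this
          linarith
        have h5 := same_trans h4 h1 h2
        rw [hz2 i j hij, dist_comm (z i) q, hz1, hz1] at h5
        linarith
      have hne' : ∀ i, (s i).1 ≠ p := by
        intro i h
        have h1 := hH _ (hsH i) _ hpq
        simp only [h, dist_self] at h1
        have h2 : (s i).2 = q := dist_eq_zero.1 h1.symm
        have h5 := hsne i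
        rw [h2, dist_self, dist_comm, hz1, add_zero] at h5
        exact h5 rfl
      obtain ⟨i, j, hij, hlt'⟩ := hn p (Fin.cons x fun i => (s i).1) (by
        intro i
        refine Fin.cases ?_ (fun i => ?_) i
        · simp only [Fin.cons_zero]
          intro h
          rw [← dist_eq_zero, hxp] at h
          exact hpos.ne' h
        · simpa using hne' i)
      revert hij hlt'
      refine Fin.cases ?_ (fun i => ?_) i <;> refine Fin.cases ?_ (fun j => ?_) j
      · intro h; exact absurd rfl h
      · intro _ h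
        simp only [Fin.cons_zero, Fin.cons_succ] at h
        rw [hxa _ (hsH j), hxp] at h
        exact lt_irrefl _ h
      · intro _ h
        simp only [Fin.cons_zero, Fin.cons_succ] at h
        rw [dist_comm, hxa _ (hsH i), dist_comm p x, hxp, dist_comm (s i).1 p] at h
        linarith
      · intro hij h
        simp only [Fin.cons_succ] at h
        have hij' : i ≠ j := fun e => hij (by rw [e])
        have e1 := hH _ (hsH i) _ hpq
        have e2 := hH _ hpq _ (hsH j)
        simp only at e1 e2
        rw [hH _ (hsH i) _ (hsH j), e1, e2] at h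
        exact hsep i j hij' h
    obtain ⟨i, hi⟩ := hfree
    refine ⟨z i, hadd x (z i) fun s hs' => ?_⟩
    have e := hH _ hpq _ hs'
    simp only at e
    rw [hxa s hs', hi s hs', e]
  have hdom : ∀ x, ∃ y, (x, y) ∈ G := key G hG hadd
  have hran : ∀ y, ∃ x, (x, y) ∈ G := by
    have := key {p : X × X | (p.2, p.1) ∈ G} (fun p hp q hq => (hG _ hp _ hq).symm)
      (fun x y h => hadd y x fun p hp => (h (p.2, p.1) hp).symm)
    exact this
  choose g hg using hdom
  choose g' hg' using hran
  have huniq : ∀ x y z : X, (x, y) ∈ G → (x, z) ∈ G → y = z := by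
    intro x y z h1 h2
    have := hG _ h1 _ h2
    simp only [dist_self] at this
    exact dist_eq_zero.1 this.symm
  have huniq' : ∀ x y z : X, (x, z) ∈ G → (y, z) ∈ G → x = y := by
    intro x y z h1 h2
    have := hG _ h1 _ h2
    simp only [dist_self] at this
    exact dist_eq_zero.1 this
  refine ⟨⟨⟨g, g', fun x => huniq' _ _ _ (hg' (g x)) (hg x),
    fun y => huniq _ _ _ (hg (g' y)) (hg' y)⟩, ?_⟩, fun a => ?_⟩
  · exact Isometry.of_dist_eq fun x y => (hG _ (hg x) _ (hg y)).symm
  · exact huniq _ _ _ (hg a) (hG₀G ⟨a, rfl⟩)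

end Abstract

/-! ### The tree -/

/-- Points of the tree: functions `(-∞, ht) → {0,1}` (extended by `0`), vanishing near `-∞` and
locally constant from the right. -/
@[ext] structure T3 where
  ht : ℝ
  val : ℝ → Bool
  supp : ∀ t, ht ≤ t → val t = false
  low : ∃ a, ∀ t, t < a → val t = false
  rc : ∀ t, t < ht → ∃ ε > 0, ∀ s, t ≤ s → s < t + ε → val s = val t

namespace T3

/-- The height at which two functions separate. -/
noncomputable def meet (x y : T3) : ℝ :=
  sSup {t | t ≤ x.ht ∧ t ≤ y.ht ∧ ∀ s, s < t → x.val s = y.val s}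

lemma le_meet_iff {x y : T3} {t : ℝ} :
    t ≤ meet x y ↔ t ≤ x.ht ∧ t ≤ y.ht ∧ ∀ s, s < t → x.val s = y.val s := by
  set S : Set ℝ := {t | t ≤ x.ht ∧ t ≤ y.ht ∧ ∀ s, s < t → x.val s = y.val s} with hS
  have hb : BddAbove S := ⟨x.ht, fun t ht => ht.1⟩
  have hne : S.Nonempty := by
    obtain ⟨a, ha⟩ := x.low
    obtain ⟨b, hb⟩ := y.low
    refine ⟨min (min a b) (min x.ht y.ht), ?_, ?_, fun s hs => ?_⟩
    · exact (min_le_right _ _).trans (min_le_left _ _)
    · exact (min_le_right _ _).trans (min_le_right _ _)
    · rw [ha s (hs.trans_le ((min_le_left _ _).trans (min_le_left _ _))),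
        hb s (hs.trans_le ((min_le_left _ _).trans (min_le_right _ _)))]
  constructor
  · intro h
    refine ⟨h.trans (csSup_le hne fun u hu => hu.1), h.trans (csSup_le hne fun u hu => hu.2.1),
      fun s hs => ?_⟩
    obtain ⟨u, hu, hsu⟩ := exists_lt_of_lt_csSup hne (lt_of_lt_of_le hs h)
    exact hu.2.2 s hsu
  · intro h
    exact le_csSup hb h

lemma meet_le_left (x y : T3) : meet x y ≤ x.ht := (le_meet_iff.1 le_rfl).1
lemma meet_le_right (x y : T3) : meet x y ≤ y.ht := (le_meet_iff.1 le_rfl).2.1
lemma eq_of_lt_meet {x y : T3} {s : ℝ} (h : s < meet x y) : x.val s = y.val s :=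
  (le_meet_iff.1 le_rfl).2.2 s h

lemma meet_comm (x y : T3) : meet x y = meet y x := by
  apply eq_of_forall_le_iff
  intro t
  rw [le_meet_iff, le_meet_iff]
  constructor <;> rintro ⟨h1, h2, h3⟩ <;> exact ⟨h2, h1, fun s hs => (h3 s hs).symm⟩

lemma meet_self (x : T3) : meet x x = x.ht :=
  le_antisymm (meet_le_left _ _) (le_meet_iff.2 ⟨le_rfl, le_rfl, fun _ _ => rfl⟩)

lemma min_le_meet (x y z : T3) : min (meet x y) (meet y z) ≤ meet x z := by
  rw [le_meet_iff]
  refine ⟨(min_le_left _ _).trans (meet_le_left _ _), (min_le_right _ _).trans (meet_le_right _ _),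
    fun s hs => ?_⟩
  rw [eq_of_lt_meet (hs.trans_le (min_le_left _ _)), eq_of_lt_meet (hs.trans_le (min_le_right _ _))]

lemma eq_of_meet {x y : T3} (h1 : meet x y = x.ht) (h2 : meet x y = y.ht) : x = y := by
  apply T3.ext (h1.symm.trans h2)
  funext s
  by_cases hs : s < meet x y
  · exact eq_of_lt_meet hs
  · rw [x.supp s (by linarith [not_lt.1 hs]), y.supp s (by linarith [not_lt.1 hs])]

noncomputable instance : MetricSpace T3 where
  dist x y := x.ht + y.ht - 2 * meet x y
  dist_self x := by
    simp only [meet_self]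
    ring
  dist_comm x y := by
    simp only [meet_comm x y]
    ring
  dist_triangle x y z := by
    have h1 := min_le_meet x y z
    have h2 := meet_le_right x y
    have h3 := meet_le_left y z
    rcases min_le_iff.1 h1 with h | h <;> linarith
  eq_of_dist_eq_zero {x y} h := by
    have h2 := meet_le_left x y
    have h3 := meet_le_right x y
    exact eq_of_meet (by linarith) (by linarith)

lemma dist_def (x y : T3) : dist x y = x.ht + y.ht - 2 * meet x y := rfl

lemma fourPoint : FourPoint T3 := by
  intro x y z w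
  simp only [dist_def]
  have a := min_le_iff.1 (min_le_meet x y z)
  have b := min_le_iff.1 (min_le_meet x w z)
  have c := min_le_iff.1 (min_le_meet y x w)
  have d := min_le_iff.1 (min_le_meet y z w)
  rw [meet_comm y x] at c
  rw [meet_comm w z] at b
  rw [le_max_iff]
  by_contra hcon
  push Not at hcon
  obtain ⟨e, f⟩ := hcon
  rcases a with a | a <;> rcases b with b | b <;> rcases c with c | c <;> rcases d with d | d <;>
    linarith

/-! #### Lower parts -/

/-- The restriction of `x` to `(-∞, t)`. -/
noncomputable def cut (x : T3) (t : ℝ) : T3 where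
  ht := min t x.ht
  val s := if s < t then x.val s else false
  supp s hs := by
    by_cases h : s < t
    · rw [if_pos h]
      refine x.supp s ?_
      rcases min_le_iff.1 hs with h' | h'
      · exact absurd h' (not_le.2 h)
      · exact h'
    · rw [if_neg h]
  low := by
    obtain ⟨a, ha⟩ := x.low
    refine ⟨a, fun s hs => ?_⟩
    by_cases h : s < t
    · rw [if_pos h, ha s hs]
    · rw [if_neg h]
  rc s hs := by
    have hst : s < t := hs.trans_le (min_le_left _ _)
    obtain ⟨ε, hε, h⟩ := x.rc s (hs.trans_le (min_le_right _ _))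
    refine ⟨min ε (t - s), lt_min hε (by linarith), fun u hu hu' => ?_⟩
    have h1 := min_le_left ε (t - s)
    have h2 := min_le_right ε (t - s)
    rw [if_pos hst, if_pos (by linarith), h u hu (by linarith)]

lemma meet_cut (x y : T3) (t : ℝ) : meet (cut x t) y = min t (meet x y) := by
  apply eq_of_forall_le_iff
  intro u
  rw [le_meet_iff, le_min_iff, le_meet_iff]
  constructor
  · rintro ⟨h1, h2, h3⟩
    have h4 : u ≤ t := h1.trans (min_le_left _ _)
    refine ⟨h4, h1.trans (min_le_right _ _), h2, fun s hs => ?_⟩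
    have := h3 s hs
    rwa [show (cut x t).val s = x.val s from if_pos (hs.trans_le h4)] at this
  · rintro ⟨h1, h2, h3, h4⟩
    refine ⟨le_min h1 h2, h3, fun s hs => ?_⟩
    rw [show (cut x t).val s = x.val s from if_pos (hs.trans_le h1)]
    exact h4 s hs

lemma ht_cut (x : T3) {t : ℝ} (h : t ≤ x.ht) : (cut x t).ht = t := min_eq_left h

lemma dist_cut_cut (x : T3) {s t : ℝ} (hs : s ≤ x.ht) (ht : t ≤ x.ht) :
    dist (cut x s) (cut x t) = |s - t| := by
  rw [dist_def, ht_cut x hs, ht_cut x ht, meet_cut, meet_comm, meet_cut, meet_self,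
    min_eq_left ht]
  rcases le_total s t with h | h
  · rw [min_eq_left h, abs_of_nonpos (by linarith)]
    ring
  · rw [min_eq_right h, abs_of_nonneg (by linarith)]
    ring

lemma cut_ht (x : T3) : cut x x.ht = x := by
  apply eq_of_meet
  · rw [meet_cut, meet_self, min_self, ht_cut x le_rfl]
  · rw [meet_cut, meet_self, min_self]

lemma cut_meet (x y : T3) : cut x (meet x y) = cut y (meet x y) := by
  apply eq_of_meet
  · rw [meet_cut, meet_comm x (cut y _), meet_cut, meet_comm y x, min_self, min_self,
      ht_cut x (meet_le_left x y)]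
  · rw [meet_cut, meet_comm x (cut y _), meet_cut, meet_comm y x, min_self, min_self,
      ht_cut y (meet_le_right x y)]

lemma dist_cut (x y : T3) {t : ℝ} (h1 : meet x y ≤ t) (h2 : t ≤ x.ht) :
    dist (cut x t) y = t + y.ht - 2 * meet x y := by
  rw [dist_def, ht_cut x h2, meet_cut, min_eq_right h1]

lemma seg : Seg T3 := by
  intro a b s h0 hs
  have ha := meet_le_left a b
  have hb := meet_le_right a b
  rw [dist_def] at hs ⊢
  by_cases h : s ≤ a.ht - meet a b
  · refine ⟨cut a (a.ht - s), ?_, ?_⟩
    · have := dist_cut_cut a (s := a.ht) (t := a.ht - s) le_rfl (by linarith)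
      rw [cut_ht] at this
      rw [this, abs_of_nonneg (by linarith)]
      ring
    · rw [dist_cut a b (by linarith) (by linarith)]
      ring
  · push Not at h
    refine ⟨cut b (2 * meet a b - a.ht + s), ?_, ?_⟩
    · rw [dist_comm, dist_cut b a (by rw [meet_comm]; linarith) (by linarith), meet_comm b a]
      ring
    · have := dist_cut_cut b (s := 2 * meet a b - a.ht + s) (t := b.ht) (by linarith) le_rfl
      rw [cut_ht] at this
      rw [this, abs_of_nonpos (by linarith)]
      ring

/-! #### Upward branches -/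

/-- Extend `x` by `0` on `[ht, ht + a)` and by `1` on `[ht + a, ht + r)`. -/
noncomputable def up (x : T3) (r a : ℝ) (hr : 0 ≤ r) : T3 where
  ht := x.ht + r
  val s := if s < x.ht then x.val s else decide (x.ht + a ≤ s ∧ s < x.ht + r)
  supp s hs := by
    rw [if_neg (by linarith), decide_eq_false]
    rintro ⟨-, h⟩
    linarith
  low := by
    obtain ⟨b, hb⟩ := x.low
    refine ⟨min b x.ht, fun s hs => ?_⟩
    rw [if_pos (hs.trans_le (min_le_right _ _)), hb s (hs.trans_le (min_le_left _ _))]
  rc t htt := by
    by_cases h : t < x.ht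
    · obtain ⟨ε, hε, h'⟩ := x.rc t h
      refine ⟨min ε (x.ht - t), lt_min hε (by linarith), fun u hu hu' => ?_⟩
      have h1 := min_le_left ε (x.ht - t)
      have h2 := min_le_right ε (x.ht - t)
      rw [if_pos h, if_pos (by linarith), h' u hu (by linarith)]
    · by_cases h2 : x.ht + a ≤ t
      · refine ⟨x.ht + r - t, by linarith, fun u hu hu' => ?_⟩
        rw [if_neg (by linarith), if_neg h, decide_eq_true (by constructor <;> linarith),
          decide_eq_true ⟨h2, htt⟩]
      · push Not at h2
        refine ⟨x.ht + a - t, by linarith, fun u hu hu' => ?_⟩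
        rw [if_neg (by linarith), if_neg h, decide_eq_false (by rintro ⟨h3, -⟩; linarith),
          decide_eq_false (by rintro ⟨h3, -⟩; linarith)]

lemma meet_up_self (x : T3) (r a : ℝ) (hr : 0 ≤ r) : meet x (up x r a hr) = x.ht := by
  refine le_antisymm (meet_le_left _ _) (le_meet_iff.2 ⟨le_rfl, ?_, fun s hs => ?_⟩)
  · show x.ht ≤ x.ht + r
    linarith
  · show x.val s = if s < x.ht then x.val s else _
    rw [if_pos hs]

lemma dist_up (x : T3) (r a : ℝ) (hr : 0 ≤ r) : dist x (up x r a hr) = r := by
  rw [dist_def, meet_up_self]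
  show x.ht + (x.ht + r) - 2 * x.ht = r
  ring

lemma meet_up_up (x : T3) (r : ℝ) (hr : 0 ≤ r) {a b : ℝ} (ha : 0 ≤ a) (hab : a < b) (hbr : b ≤ r) :
    meet (up x r a hr) (up x r b hr) = x.ht + a := by
  apply eq_of_forall_le_iff
  intro u
  rw [le_meet_iff]
  constructor
  · rintro ⟨-, -, h⟩
    by_contra hu
    push Not at hu
    have := h (x.ht + a) hu
    simp only [up] at this
    rw [if_neg (by linarith), if_neg (by linarith), decide_eq_true (by constructor <;> linarith),
      decide_eq_false (by rintro ⟨h3, -⟩; linarith)] at this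
    exact absurd this (by decide)
  · intro hu
    refine ⟨?_, ?_, fun s hs => ?_⟩
    · show u ≤ x.ht + r
      linarith
    · show u ≤ x.ht + r
      linarith
    · simp only [up]
      by_cases h : s < x.ht
      · rw [if_pos h, if_pos h]
      · rw [if_neg h, if_neg h, decide_eq_false (by rintro ⟨h3, -⟩; linarith),
          decide_eq_false (by rintro ⟨h3, -⟩; linarith)]

lemma dist_up_up (x : T3) (r : ℝ) (hr : 0 ≤ r) {a b : ℝ} (ha : 0 ≤ a) (hab : a < b)
    (hbr : b ≤ r) : dist (up x r a hr) (up x r b hr) = 2 * (r - a) := by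
  rw [dist_def, meet_up_up x r hr ha hab hbr]
  show x.ht + r + (x.ht + r) - 2 * (x.ht + a) = 2 * (r - a)
  ring

lemma three : Three T3 := by
  intro q r hr
  have hcut : dist q (cut q (q.ht - r)) = r := by
    have := dist_cut_cut q (s := q.ht) (t := q.ht - r) le_rfl (by linarith)
    rw [cut_ht] at this
    rw [this, abs_of_nonneg (by linarith)]
    ring
  have hcu : ∀ a, dist (cut q (q.ht - r)) (up q r a hr.le) = 2 * r := by
    intro a
    rw [dist_def, ht_cut q (by linarith), meet_cut, meet_up_self, min_eq_left (by linarith)]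
    show q.ht - r + (q.ht + r) - 2 * (q.ht - r) = 2 * r
    ring
  have huu : dist (up q r 0 hr.le) (up q r r hr.le) = 2 * r := by
    rw [dist_up_up q r hr.le le_rfl hr le_rfl]
    ring
  refine ⟨![cut q (q.ht - r), up q r 0 hr.le, up q r r hr.le], fun i => ?_, fun i j hij => ?_⟩
  · fin_cases i
    · exact hcut
    · exact dist_up q r _ hr.le
    · exact dist_up q r _ hr.le
  · fin_cases i <;> fin_cases j
    · exact absurd rfl hij
    · exact hcu _
    · exact hcu _
    · exact (dist_comm _ _).trans (hcu _)
    · exact absurd rfl hij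
    · exact huu
    · exact (dist_comm _ _).trans (hcu _)
    · exact (dist_comm _ _).trans huu
    · exact absurd rfl hij

/-- The direction of `z` at `p`. -/
noncomputable def dir (p z : T3) : Option Bool :=
  if meet p z < p.ht then none else some (z.val p.ht)

lemma same_dir {p z w : T3} (hz : z ≠ p) (hw : w ≠ p) (h : dir p z = dir p w) :
    dist z w < dist z p + dist p w := by
  rw [dist_def, dist_def, dist_def]
  have h1 := min_le_iff.1 (min_le_meet z p w)
  have hzp := meet_le_left p z
  have hwp := meet_le_left p w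
  rw [meet_comm z p] at h1 ⊢
  by_cases h2 : meet p z < p.ht
  · rw [dir, dir, if_pos h2] at h
    have h3 : meet p w < p.ht := by
      by_contra hc
      rw [if_neg hc] at h
      cases h
    rcases h1 with h1 | h1 <;> linarith
  · have h3 : ¬ meet p w < p.ht := by
      intro hc
      rw [dir, dir, if_neg h2, if_pos hc] at h
      cases h
    rw [dir, dir, if_neg h2, if_neg h3] at h
    have h4 : z.val p.ht = w.val p.ht := Option.some.inj h
    have h5 : meet p z = p.ht := le_antisymm hzp (not_lt.1 h2)
    have h6 : meet p w = p.ht := le_antisymm hwp (not_lt.1 h3)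
    have h7 : p.ht < z.ht := by
      refine lt_of_le_of_ne (h5 ▸ meet_le_right p z) fun e => hz ?_
      exact (eq_of_meet h5 (h5.trans e)).symm
    have h8 : p.ht < w.ht := by
      refine lt_of_le_of_ne (h6 ▸ meet_le_right p w) fun e => hw ?_
      exact (eq_of_meet h6 (h6.trans e)).symm
    obtain ⟨ε, hε, hz'⟩ := z.rc _ h7
    obtain ⟨δ, hδ, hw'⟩ := w.rc _ h8
    have h9 : p.ht + min (min ε δ) (min (z.ht - p.ht) (w.ht - p.ht)) ≤ meet z w := by
      set m := min (min ε δ) (min (z.ht - p.ht) (w.ht - p.ht)) with hm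
      have e1 : m ≤ ε := (min_le_left _ _).trans (min_le_left _ _)
      have e2 : m ≤ δ := (min_le_left _ _).trans (min_le_right _ _)
      have e3 : m ≤ z.ht - p.ht := (min_le_right _ _).trans (min_le_left _ _)
      have e4 : m ≤ w.ht - p.ht := (min_le_right _ _).trans (min_le_right _ _)
      rw [le_meet_iff]
      refine ⟨by linarith, by linarith, fun s hs => ?_⟩
      by_cases hsp : s < p.ht
      · rw [← eq_of_lt_meet (x := p) (y := z) (by linarith),
          ← eq_of_lt_meet (x := p) (y := w) (by linarith)]
      · push Not at hsp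
        rw [hz' s hsp (by linarith), hw' s hsp (by linarith), h4]
    have h10 : 0 < min (min ε δ) (min (z.ht - p.ht) (w.ht - p.ht)) :=
      lt_min (lt_min hε hδ) (lt_min (by linarith) (by linarith))
    linarith

lemma notFour : NotFour T3 := by
  intro p w hw
  obtain ⟨i, j, hij, h⟩ := Fintype.exists_ne_map_eq_of_card_lt (fun i : Fin 4 => dir p (w i))
    (by simp)
  exact ⟨i, j, hij, same_dir (hw i) (hw j) h⟩

/-! #### Completeness -/

instance : CompleteSpace T3 := by
  refine Metric.complete_of_cauchySeq_tendsto fun u hu => ?_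
  have hht : ∀ x y : T3, |x.ht - y.ht| ≤ dist x y := by
    intro x y
    have h1 := meet_le_left x y
    have h2 := meet_le_right x y
    rw [dist_def, abs_le]
    constructor <;> linarith
  have hc : CauchySeq fun n => (u n).ht := by
    rw [Metric.cauchySeq_iff] at hu ⊢
    intro ε hε
    obtain ⟨N, hN⟩ := hu ε hε
    exact ⟨N, fun m hm n hn => (hht _ _).trans_lt (hN m hm n hn)⟩
  obtain ⟨h, hh⟩ := cauchySeq_tendsto_of_complete hc
  -- below `h` the sequence is eventually constant
  have hst : ∀ t < h, ∃ N, ∀ n ≥ N, ∀ m ≥ N, t < meet (u n) (u m) := by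
    intro t ht
    obtain ⟨N₁, hN₁⟩ := (Metric.cauchySeq_iff.1 hu) ((h - t) / 2) (by linarith)
    obtain ⟨N₂, hN₂⟩ := Filter.eventually_atTop.1 (hh.eventually (lt_mem_nhds
      (show h - (h - t) / 4 < h by linarith)))
    refine ⟨max N₁ N₂, fun n hn m hm => ?_⟩
    have h1 := hN₁ n (le_trans (le_max_left _ _) hn) m (le_trans (le_max_left _ _) hm)
    have h2 := hN₂ n (le_trans (le_max_right _ _) hn)
    have h3 := hN₂ m (le_trans (le_max_right _ _) hm)
    rw [dist_def] at h1
    linarith
  choose! N hN using hst
  let v : ℝ → Bool := fun t => if t < h then (u (N t)).val t else false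
  have hv : ∀ t < h, ∀ s ≤ t, ∀ n ≥ N t, v s = (u n).val s := by
    intro t ht s hs n hn
    have hsh : s < h := lt_of_le_of_lt hs ht
    show (if s < h then (u (N s)).val s else false) = _
    rw [if_pos hsh]
    have h1 : (u (N s)).val s = (u (max (N s) n)).val s :=
      eq_of_lt_meet (hN s hsh _ le_rfl _ (le_max_left _ _))
    have h2 : (u n).val s = (u (max (N s) n)).val s :=
      eq_of_lt_meet (lt_of_le_of_lt hs (hN t ht n hn _ (le_trans hn (le_max_right _ _))))
    rw [h1, h2]
  let x : T3 :=
    { ht := h
      val := v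
      supp := fun t ht => if_neg (not_lt.2 ht)
      low := by
        obtain ⟨a, ha⟩ := (u (N (h - 1))).low
        refine ⟨min a (h - 1), fun t ht => ?_⟩
        rw [hv (h - 1) (by linarith) t (ht.le.trans (min_le_right _ _)) _ le_rfl,
          ha t (ht.trans_le (min_le_left _ _))]
      rc := by
        intro t ht
        have h1 : (t + h) / 2 < h := by linarith
        have hNt := hN _ h1 _ le_rfl _ le_rfl
        rw [meet_self] at hNt
        obtain ⟨ε, hε, hc⟩ := (u (N ((t + h) / 2))).rc t (by linarith)
        refine ⟨min ε ((h - t) / 2), lt_min hε (by linarith), fun s hs hs' => ?_⟩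
        have e1 := min_le_left ε ((h - t) / 2)
        have e2 := min_le_right ε ((h - t) / 2)
        rw [hv _ h1 s (by linarith) _ le_rfl, hv _ h1 t (by linarith) _ le_rfl]
        exact hc s hs (by linarith) }
  refine ⟨x, ?_⟩
  rw [Metric.tendsto_atTop]
  intro ε hε
  obtain ⟨M, hM⟩ := (Metric.tendsto_atTop.1 hh) (ε / 4) (by linarith)
  refine ⟨max M (N (h - ε / 4)), fun n hn => ?_⟩
  have h1 := hM n (le_trans (le_max_left _ _) hn)
  rw [Real.dist_eq, abs_lt] at h1
  have h2 : h - ε / 4 ≤ meet (u n) x := by
    rw [le_meet_iff]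
    refine ⟨by linarith, show h - ε / 4 ≤ h by linarith, fun s hs => ?_⟩
    exact (hv (h - ε / 4) (by linarith) s hs.le n (le_trans (le_max_right _ _) hn)).symm
  rw [dist_def]
  show (u n).ht + h - 2 * meet (u n) x < ε
  linarith

/-! #### Connectedness -/

lemma exists_preconnected (x y : T3) : ∃ S : Set T3, x ∈ S ∧ y ∈ S ∧ IsPreconnected S ∧
    ∀ z ∈ S, dist z x ≤ dist y x := by
  have hcont' : ∀ (x : T3) (m : ℝ), ContinuousOn (fun t => cut x t) (Icc m x.ht) := by
    intro x m
    rw [Metric.continuousOn_iff]
    intro b hb ε hε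
    refine ⟨ε, hε, fun a ha hab => ?_⟩
    rw [dist_cut_cut x ha.2 hb.2]
    exact hab
  have hx := meet_le_left x y
  have hy := meet_le_right x y
  refine ⟨(fun t => cut x t) '' Icc (meet x y) x.ht ∪ (fun t => cut y t) '' Icc (meet x y) y.ht,
    Or.inl ⟨x.ht, ⟨hx, le_rfl⟩, cut_ht x⟩, Or.inr ⟨y.ht, ⟨hy, le_rfl⟩, cut_ht y⟩, ?_, ?_⟩
  · refine IsPreconnected.union (cut x (meet x y)) ⟨_, ⟨le_rfl, hx⟩, rfl⟩
      ⟨_, ⟨le_rfl, hy⟩, (cut_meet x y).symm⟩ (isPreconnected_Icc.image _ (hcont' _ _))
      (isPreconnected_Icc.image _ (hcont' _ _))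
  · rintro _ (⟨t, ht, rfl⟩ | ⟨t, ht, rfl⟩)
    · have := dist_cut_cut x ht.2 le_rfl
      rw [cut_ht] at this
      simp only [this]
      rw [abs_of_nonpos (by linarith [ht.2]), dist_def, meet_comm]
      linarith [ht.1]
    · have := dist_cut y x (t := t) (by rw [meet_comm]; exact ht.1) ht.2
      simp only [this]
      rw [dist_def]
      linarith [ht.2]

lemma isPreconnected_ball (x : T3) (r : ℝ) : IsPreconnected (Metric.ball x r) := by
  refine isPreconnected_of_forall x fun y hy => ?_
  obtain ⟨S, hx, hy', hS, hd⟩ := exists_preconnected x y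
  exact ⟨S, fun z hz => lt_of_le_of_lt (hd z hz) hy, hx, hy', hS⟩

/-- The zero function on `(-∞, 0)`. -/
def zero : T3 := ⟨0, fun _ => false, fun _ _ => rfl, ⟨0, fun _ _ => rfl⟩,
  fun _ _ => ⟨1, one_pos, fun _ _ _ => rfl⟩⟩

instance : ConnectedSpace T3 where
  isPreconnected_univ := by
    refine isPreconnected_of_forall zero fun y _ => ?_
    obtain ⟨S, hx, hy', hS, -⟩ := exists_preconnected zero y
    exact ⟨S, subset_univ _, hx, hy', hS⟩
  toNonempty := ⟨zero⟩

instance : LocallyConnectedSpace T3 :=
  locallyConnectedSpace_of_connected_bases (fun x r => Metric.ball x r) (fun _ r => 0 < r)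
    (fun _ => Metric.nhds_basis_ball) fun x r _ => isPreconnected_ball x r

lemma not_locallyCompact : ¬ LocallyCompactSpace T3 := by
  intro hlc
  obtain ⟨K, hK, hmem⟩ := exists_compact_mem_nhds zero
  obtain ⟨ε, hε, hsub⟩ := Metric.mem_nhds_iff.1 hmem
  have hr : (0 : ℝ) < ε / 2 := by linarith
  let a : ℕ → ℝ := fun n => ε / 2 / ((n : ℝ) + 2)
  have ha0 : ∀ n, 0 ≤ a n := fun n => by positivity
  have ha1 : ∀ n, a n ≤ ε / 4 := by
    intro n
    show ε / 2 / ((n : ℝ) + 2) ≤ ε / 4
    rw [div_le_iff₀ (by positivity)]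
    have : (0 : ℝ) ≤ n := Nat.cast_nonneg n
    nlinarith
  have hamono : ∀ n m, n < m → a m < a n := by
    intro n m hnm
    apply div_lt_div_of_pos_left hr (by positivity)
    have : (n : ℝ) < m := by exact_mod_cast hnm
    linarith
  let y : ℕ → T3 := fun n => up zero (ε / 2) (a n) hr.le
  have hyK : ∀ n, y n ∈ K := by
    intro n
    apply hsub
    rw [Metric.mem_ball, dist_comm, dist_up]
    linarith
  have hsep : ∀ n m, n < m → ε / 2 ≤ dist (y n) (y m) := by
    intro n m hnm
    rw [dist_comm, dist_up_up zero (ε / 2) hr.le (ha0 m) (hamono n m hnm) (by linarith [ha1 n])]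
    linarith [ha1 m]
  obtain ⟨z, -, φ, hφ, hlim⟩ := hK.tendsto_subseq hyK
  obtain ⟨N, hN⟩ := (Metric.tendsto_atTop.1 hlim) (ε / 8) (by linarith)
  have h1 := hN N le_rfl
  have h2 := hN (N + 1) (Nat.le_succ N)
  have h3 := hsep _ _ (hφ (Nat.lt_succ_self N))
  have h4 := dist_triangle_right (y (φ N)) (y (φ (N + 1))) z
  simp only [Function.comp] at h1 h2
  linarith

end T3

/-- **Theorem.** There is a complete metric space which is absolutely homogeneous, connected and
locally connected, but not locally compact. -/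
theorem result : ∃ (X : Type) (_ : MetricSpace X), CompleteSpace X ∧ AbsolutelyHomogeneous X ∧
    ConnectedSpace X ∧ LocallyConnectedSpace X ∧ ¬ LocallyCompactSpace X :=
  ⟨T3, inferInstance, inferInstance,
    absolutelyHomogeneous T3.fourPoint T3.seg T3.three T3.notFour, inferInstance, inferInstance,
    T3.not_locallyCompact⟩

end Pool.Agent.Results.MP_079cdc_gt.TrivalentTree
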